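import Pool.Agent.Horo.Core

/-!
# Horofunction boundaries of groups of exponential growth are uncountable
-/

namespace Pool.Agent.Results.MP_eca5e6_al.ExponentialGrowth

universe u

/-- Let `S` be a finite generating set of a group `G`, and let `Γ` be its Cayley graph.  If `G` has
exponential growth, or if `G` is not amenable, then the horofunction boundary of the word metric
of `S` is uncountable. -/
theorem result (G : Type u) [Group G] (S : Finset G)
    (hS : Subgroup.closure (S : Set G) = ⊤)
    (Γ : SimpleGraph G) (hΓ : Γ = SimpleGraph.fromRel (fun g h : G => g⁻¹ * h ∈ S))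
    (hgrowth : (∃ c C : ℝ, 1 < c ∧
        ∀ n : ℕ, c ^ n ≤ C * (Nat.card {x : G // Γ.dist 1 x ≤ n} : ℝ)) ∨
      ¬ Pool.Agent.PackIndex.IsAmenable G)
    (A : Set (G → ℤ))
    (hA : A = Set.range (fun x : G => fun z : G =>
      ((Γ.dist z x : ℕ) : ℤ) - ((Γ.dist 1 x : ℕ) : ℤ))) :
    ¬ (closure A \ A).Countable :=
  Pool.Agent.Horo.main G S hS Γ hΓ hgrowth A hA

end Pool.Agent.Results.MP_eca5e6_al.ExponentialGrowth
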