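import Pool.Agent.Horo.Indicable

/-!
# Groups with countable horofunction boundary are virtually indicable
-/

namespace Pool.Agent.Results.MP_eca5e6_al.VirtuallyIndicable

universe u

/-- Let `S` be a finite generating set of an infinite group `G` none of whose finite index
subgroups has a nontrivial homomorphism to `ℤ`.  Then the horofunction boundary of the word metric
of `S` is uncountable. -/
theorem result (G : Type u) [Group G] [Infinite G] (S : Finset G)
    (hS : Subgroup.closure (S : Set G) = ⊤)
    (Γ : SimpleGraph G) (hΓ : Γ = SimpleGraph.fromRel (fun g h : G => g⁻¹ * h ∈ S))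
    (hG : ∀ H : Subgroup G, H.FiniteIndex → ∀ θ : H →* Multiplicative ℤ, θ = 1)
    (A : Set (G → ℤ))
    (hA : A = Set.range (fun x : G => fun z : G =>
      ((Γ.dist z x : ℕ) : ℤ) - ((Γ.dist 1 x : ℕ) : ℤ))) :
    ¬ (closure A \ A).Countable :=
  Pool.Agent.Horo.main_indicable G S hS Γ hΓ hG A hA

end Pool.Agent.Results.MP_eca5e6_al.VirtuallyIndicable
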